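import Mathlib

set_option autoImplicit false

open MeasureTheory Set Filter Topology
open scoped ENNReal

namespace Pool.Agent.Results.MP_662df3_gt.ExponentialPair

/-- The boundary measure `μ⁺(A) = liminf_{r → 0+} (μ(A_r) - μ(A)) / r`, where `A_r` is the open
`r`-neighbourhood of `A`. -/
noncomputable def bdry {X : Type*} [PseudoMetricSpace X] [MeasurableSpace X] (μ : Measure X)
    (A : Set X) : ℝ≥0∞ :=
  liminf (fun r : ℝ => (μ (Metric.thickening r A) - μ A) / ENNReal.ofReal r) (𝓝[>] (0 : ℝ))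

/-- The isoperimetric profile `I_μ(a)`, the infimum of `μ⁺(A)` over the measurable `A` with
`μ(A) = a`, and `I_μ(0) = I_μ(1) = 0`. -/
noncomputable def profile {X : Type*} [PseudoMetricSpace X] [MeasurableSpace X] (μ : Measure X)
    (a : ℝ) : ℝ≥0∞ :=
  if a = 0 ∨ a = 1 then 0
  else ⨅ (A : Set X) (_ : MeasurableSet A) (_ : μ A = ENNReal.ofReal a), bdry μ A

/-- `R_μ(a) = I_μ(a) / a`. -/
noncomputable def ratio {X : Type*} [PseudoMetricSpace X] [MeasurableSpace X] (μ : Measure X)
    (a : ℝ) : ℝ≥0∞ := profile μ a / ENNReal.ofReal a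

/-- Symmetric log-concave probability measures on the line: probability measures with a density
`e^{-V}`, with `V : ℝ → (-∞, ∞]` convex, which satisfy `μ(-A) = μ(A)` for all Borel `A`. -/
def IsSymLogConcave (μ : Measure ℝ) : Prop :=
  IsProbabilityMeasure μ ∧
  (∃ V : ℝ → EReal, (∀ x, V x ≠ ⊥) ∧
    (∀ x y t : ℝ, 0 < t → t < 1 →
      V (t * x + (1 - t) * y) ≤ (t : EReal) * V x + ((1 - t : ℝ) : EReal) * V y) ∧
    μ = (volume : Measure ℝ).withDensity (fun x => EReal.exp (-V x))) ∧
  ∀ A : Set ℝ, MeasurableSet A → μ (Neg.neg ⁻¹' A) = μ A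

/-- The Euclidean plane. -/
abbrev Plane : Type := WithLp 2 (ℝ × ℝ)

/-- The product measure `μ₁ ⊗ μ₂` on the Euclidean plane. -/
noncomputable def tensor (μ₁ μ₂ : Measure ℝ) : Measure Plane :=
  (μ₁.prod μ₂).map (MeasurableEquiv.toLp 2 (ℝ × ℝ))

/-! ### The two-sided exponential law -/

/-- The density of the Laplace law. -/
noncomputable def dens (x : ℝ) : ℝ≥0∞ := ENNReal.ofReal (Real.exp (-|x|) / 2)

/-- The Laplace law. -/
noncomputable def nu : Measure ℝ := (volume : Measure ℝ).withDensity dens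

theorem measurable_dens : Measurable dens := by
  unfold dens
  fun_prop

theorem nu_apply {A : Set ℝ} (hA : MeasurableSet A) :
    nu A = ∫⁻ x, A.indicator dens x := by
  rw [nu, withDensity_apply _ hA, lintegral_indicator hA]

theorem nu_Ioi {c : ℝ} (hc : 0 ≤ c) : nu (Ioi c) = ENNReal.ofReal (Real.exp (-c) / 2) := by
  rw [nu, withDensity_apply _ measurableSet_Ioi]
  have h1 : ∫⁻ x in Ioi c, dens x = ∫⁻ x in Ioi c, ENNReal.ofReal (Real.exp (-x) / 2) := by
    apply setLIntegral_congr_fun measurableSet_Ioi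
    intro x hx
    have : 0 ≤ x := hc.trans (le_of_lt hx)
    simp only [dens, abs_of_nonneg this]
  rw [h1, ← ofReal_integral_eq_lintegral_ofReal]
  · rw [integral_div, integral_exp_neg_Ioi]
  · exact (integrableOn_exp_neg_Ioi c).div_const 2
  · exact Eventually.of_forall fun x => by positivity

theorem nu_neg (A : Set ℝ) (hA : MeasurableSet A) : nu (Neg.neg ⁻¹' A) = nu A := by
  rw [nu_apply hA, nu_apply (measurable_neg hA), ← lintegral_neg_eq_self]
  apply lintegral_congr
  intro x
  by_cases hx : x ∈ A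
  · rw [indicator_of_mem hx, indicator_of_mem]
    · simp [dens]
    · simpa using hx
  · rw [indicator_of_notMem hx, indicator_of_notMem]
    simpa using hx

theorem nu_Iio_neg {c : ℝ} (hc : 0 ≤ c) : nu (Iio (-c)) = ENNReal.ofReal (Real.exp (-c) / 2) := by
  rw [← nu_Ioi hc, ← nu_neg _ measurableSet_Ioi]
  congr 1
  ext x
  simp

theorem nu_singleton (x : ℝ) : nu {x} = 0 := by
  have : nu ≪ volume := withDensity_absolutelyContinuous _ _
  exact this (by simp)

theorem nu_univ : nu univ = 1 := by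
  have h : (univ : Set ℝ) = (Iio 0 ∪ {0}) ∪ Ioi 0 := by
    ext x
    rcases lt_trichotomy x 0 with h | h | h <;> simp [h]
  have h0 : (0 : ℝ) ≤ 0 := le_refl _
  have h1 := nu_Ioi h0
  have h2 := nu_Iio_neg h0
  rw [neg_zero] at h2
  apply le_antisymm
  · rw [h]
    refine (measure_union_le _ _).trans ?_
    refine (add_le_add_left (measure_union_le _ _) _).trans ?_
    rw [nu_singleton, h1, h2, add_zero, ← ENNReal.ofReal_add (by positivity) (by positivity)]
    simp
    norm_num
  · have : nu (Iio 0 ∪ Ioi 0) ≤ nu univ := measure_mono (subset_univ _)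
    refine le_trans ?_ this
    rw [measure_union _ measurableSet_Ioi, h1, h2,
      ← ENNReal.ofReal_add (by positivity) (by positivity)]
    · simp
      norm_num
    · rw [Set.disjoint_left]
      intro x hx hx'
      exact absurd (mem_Iio.1 hx) (not_lt.2 (le_of_lt (mem_Ioi.1 hx')))

instance : IsProbabilityMeasure nu := ⟨nu_univ⟩

/-- The shift lemma. -/
theorem shift {B : Set ℝ} (hB : MeasurableSet B) {s : ℝ} (hs : 0 ≤ s)
    (h : ∀ x ∈ B, s < |x|) :
    nu ({y | 0 < y ∧ y + s ∈ B} ∪ {y | y < 0 ∧ y - s ∈ B}) = ENNReal.ofReal (Real.exp s) * nu B := by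
  have hm1 : MeasurableSet {y : ℝ | 0 < y ∧ y + s ∈ B} :=
    measurableSet_Ioi.inter ((measurable_add_const s) hB)
  have hm2 : MeasurableSet {y : ℝ | y < 0 ∧ y - s ∈ B} :=
    measurableSet_Iio.inter ((measurable_sub_const s) hB)
  have hB1 : MeasurableSet (B ∩ Ioi 0) := hB.inter measurableSet_Ioi
  have hB2 : MeasurableSet (B ∩ Iio 0) := hB.inter measurableSet_Iio
  have h1 : nu {y | 0 < y ∧ y + s ∈ B} = ENNReal.ofReal (Real.exp s) * nu (B ∩ Ioi 0) := by
    rw [nu_apply hm1, nu_apply hB1, ← lintegral_const_mul _ (measurable_dens.indicator hB1),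
      ← lintegral_add_right_eq_self
        (fun y => ENNReal.ofReal (Real.exp s) * (B ∩ Ioi 0).indicator dens y) s]
    apply lintegral_congr
    intro y
    by_cases hy : y + s ∈ B ∩ Ioi 0
    · have h3 : 0 < y + s := hy.2
      have h4 : s < |y + s| := h _ hy.1
      rw [abs_of_pos h3] at h4
      have h5 : 0 < y := by linarith
      rw [indicator_of_mem hy, indicator_of_mem (show y ∈ {y | 0 < y ∧ y + s ∈ B} from ⟨h5, hy.1⟩)]
      rw [dens, dens, ← ENNReal.ofReal_mul (Real.exp_pos _).le, abs_of_pos h3, abs_of_pos h5]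
      congr 1
      rw [neg_add, Real.exp_add, Real.exp_neg s]
      field_simp
    · rw [indicator_of_notMem hy, indicator_of_notMem]
      · simp
      · intro h6
        exact hy ⟨h6.2, mem_Ioi.2 (by have := h6.1; linarith)⟩
  have h2 : nu {y | y < 0 ∧ y - s ∈ B} = ENNReal.ofReal (Real.exp s) * nu (B ∩ Iio 0) := by
    rw [nu_apply hm2, nu_apply hB2, ← lintegral_const_mul _ (measurable_dens.indicator hB2),
      ← lintegral_sub_right_eq_self
        (fun y => ENNReal.ofReal (Real.exp s) * (B ∩ Iio 0).indicator dens y) s]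
    apply lintegral_congr
    intro y
    by_cases hy : y - s ∈ B ∩ Iio 0
    · have h3 : y - s < 0 := hy.2
      have h4 : s < |y - s| := h _ hy.1
      rw [abs_of_neg h3] at h4
      have h5 : y < 0 := by linarith
      rw [indicator_of_mem hy, indicator_of_mem (show y ∈ {y | y < 0 ∧ y - s ∈ B} from ⟨h5, hy.1⟩)]
      rw [dens, dens, ← ENNReal.ofReal_mul (Real.exp_pos _).le, abs_of_neg h3, abs_of_neg h5]
      congr 1
      rw [neg_neg, neg_neg, Real.exp_sub]
      field_simp
    · rw [indicator_of_notMem hy, indicator_of_notMem]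
      · simp
      · intro h6
        exact hy ⟨h6.2, mem_Iio.2 (by have := h6.1; linarith)⟩
  rw [measure_union _ hm2, h1, h2, ← mul_add, ← measure_union _ hB2]
  · congr 2
    ext x
    constructor
    · rintro (h | h) <;> exact h.1
    · intro hx
      have h3 := h x hx
      rcases lt_trichotomy x 0 with h4 | h4 | h4
      · exact Or.inr ⟨hx, h4⟩
      · subst h4
        rw [abs_zero] at h3
        linarith
      · exact Or.inl ⟨hx, h4⟩
  · rw [Set.disjoint_left]
    intro x hx hx'
    exact absurd (mem_Iio.1 hx'.2) (not_lt.2 (le_of_lt (mem_Ioi.1 hx.2)))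
  · rw [Set.disjoint_left]
    intro x hx hx'
    exact absurd hx'.1 (not_lt.2 (le_of_lt hx.1))

/-! ### The one-dimensional isoperimetric inequality -/

theorem exp_lower {s : ℝ} (hs : 0 ≤ s) : s * (1 - s) ≤ 1 - Real.exp (-s) := by
  have h1 : 1 + s ≤ Real.exp s := by linarith [Real.add_one_le_exp s]
  have h2 : Real.exp (-s) * Real.exp s = 1 := by rw [← Real.exp_add]; simp
  have h3 : 0 < Real.exp (-s) := Real.exp_pos _
  have h4 : Real.exp (-s) * (1 + s) ≤ 1 := by
    calc Real.exp (-s) * (1 + s) ≤ Real.exp (-s) * Real.exp s :=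
        mul_le_mul_of_nonneg_left h1 h3.le
      _ = 1 := h2
  have h5 : Real.exp (-s) ≤ 1 - s + s ^ 2 := by
    nlinarith [sq_nonneg s, mul_nonneg hs (sq_nonneg s)]
  nlinarith

theorem isop {A : Set ℝ} (hA : MeasurableSet A) {t : ℝ} (h0 : 0 ≤ t) (h1 : t ≤ 1)
    (ht : nu A = ENNReal.ofReal t) : ENNReal.ofReal (min t (1 - t)) ≤ bdry nu A := by
  set m := min t (1 - t) with hm
  have hm0 : 0 ≤ m := le_min h0 (by linarith)
  have hmt : m ≤ t := min_le_left _ _
  have hmt' : m ≤ 1 - t := min_le_right _ _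
  -- the key estimate
  have key : ∀ᶠ r : ℝ in 𝓝[>] 0, ENNReal.ofReal (m * (1 - r) ^ 2) ≤
      (nu (Metric.thickening r A) - nu A) / ENNReal.ofReal r := by
    have hfin : ∀ C : Set ℝ, nu C ≠ ∞ := fun C => measure_ne_top _ _
    by_cases hcl : (0 : ℝ) ∈ closure A
    · filter_upwards [Ioo_mem_nhdsGT (show (0 : ℝ) < 1 by norm_num)] with r hr
      obtain ⟨hr0, hr1⟩ := hr
      set B := (Metric.thickening r A)ᶜ with hB
      have hBm : MeasurableSet B := Metric.isOpen_thickening.measurableSet.compl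
      set s := r * (1 - r) with hs
      have hs0 : 0 < s := mul_pos hr0 (by linarith)
      have hsr : s < r := by nlinarith
      have hBs : ∀ x ∈ B, s < |x| := by
        intro x hx
        by_contra hcon
        push Not at hcon
        apply hx
        rw [Metric.mem_thickening_iff]
        rw [Metric.mem_closure_iff] at hcl
        obtain ⟨a, ha, hda⟩ := hcl (r - s) (by linarith)
        refine ⟨a, ha, ?_⟩
        calc dist x a ≤ dist x 0 + dist 0 a := dist_triangle _ _ _
          _ < s + (r - s) := by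
            rw [Real.dist_0_eq_abs]
            linarith
          _ = r := by ring
      have hsh := shift hBm hs0.le hBs
      have hsub : ({y | 0 < y ∧ y + s ∈ B} ∪ {y | y < 0 ∧ y - s ∈ B}) ⊆ Aᶜ := by
        rintro y (⟨_, hy⟩ | ⟨_, hy⟩) hyA
        · apply hy
          rw [Metric.mem_thickening_iff]
          refine ⟨y, hyA, ?_⟩
          rw [Real.dist_eq]
          simpa [abs_of_pos hs0] using hsr
        · apply hy
          rw [Metric.mem_thickening_iff]
          refine ⟨y, hyA, ?_⟩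
          rw [Real.dist_eq]
          simpa [abs_of_pos hs0] using hsr
      have h2 : ENNReal.ofReal (Real.exp s) * nu B ≤ ENNReal.ofReal (1 - t) := by
        rw [← hsh]
        refine (measure_mono hsub).trans ?_
        rw [prob_compl_eq_one_sub hA, ht, ← ENNReal.ofReal_one, ENNReal.ofReal_sub _ h0]
      set b := (nu B).toReal with hb
      have hb' : nu B = ENNReal.ofReal b := (ENNReal.ofReal_toReal (hfin _)).symm
      have hb0 : 0 ≤ b := ENNReal.toReal_nonneg
      have h3 : Real.exp s * b ≤ 1 - t := by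
        rw [hb', ← ENNReal.ofReal_mul (Real.exp_pos _).le] at h2
        exact (ENNReal.ofReal_le_ofReal_iff (by linarith)).1 h2
      have h4 : b ≤ Real.exp (-s) * (1 - t) := by
        have : b = Real.exp (-s) * (Real.exp s * b) := by
          rw [← mul_assoc, ← Real.exp_add]; simp
        rw [this]
        exact mul_le_mul_of_nonneg_left h3 (Real.exp_pos _).le
      have h5 : nu (Metric.thickening r A) = ENNReal.ofReal (1 - b) := by
        have : nu (Metric.thickening r A) = 1 - nu B := by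
          rw [hB, prob_compl_eq_one_sub Metric.isOpen_thickening.measurableSet]
          rw [ENNReal.sub_sub_cancel ENNReal.one_ne_top prob_le_one]
        rw [this, hb', ENNReal.ofReal_sub _ hb0, ENNReal.ofReal_one]
      rw [h5, ht, ← ENNReal.ofReal_sub _ h0, ← ENNReal.ofReal_div_of_pos hr0]
      apply ENNReal.ofReal_le_ofReal
      rw [le_div_iff₀ hr0]
      have h6 := exp_lower hs0.le
      have h7 : (1 - t) * (s * (1 - s)) ≤ (1 - t) * (1 - Real.exp (-s)) :=
        mul_le_mul_of_nonneg_left h6 (by linarith)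
      have h8 : m * (s * (1 - s)) ≤ (1 - t) * (s * (1 - s)) :=
        mul_le_mul_of_nonneg_right hmt' (mul_nonneg hs0.le (by nlinarith))
      have h9 : (1 - r) ^ 2 * r ≤ s * (1 - s) := by
        rw [hs]
        have : 0 ≤ r * (1 - r) * (r - r * (1 - r)) := by
          apply mul_nonneg hs0.le
          nlinarith
        nlinarith
      calc m * (1 - r) ^ 2 * r = m * ((1 - r) ^ 2 * r) := by ring
        _ ≤ m * (s * (1 - s)) := mul_le_mul_of_nonneg_left h9 hm0
        _ ≤ 1 - b - t := by linarith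
    · have : ∃ δ > 0, ∀ x ∈ A, δ ≤ |x| := by
        rw [Metric.mem_closure_iff] at hcl
        push Not at hcl
        obtain ⟨δ, hδ, h⟩ := hcl
        refine ⟨δ, hδ, fun x hx => ?_⟩
        have := h x hx
        rwa [dist_comm, Real.dist_0_eq_abs] at this
      obtain ⟨δ, hδ, hδA⟩ := this
      filter_upwards [Ioo_mem_nhdsGT (show (0 : ℝ) < 1 by norm_num), Ioo_mem_nhdsGT hδ] with r hr hrδ
      obtain ⟨hr0, hr1⟩ := hr
      have hrδ' := hrδ.2
      set s := r * (1 - r) with hs
      have hs0 : 0 < s := mul_pos hr0 (by linarith)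
      have hsr : s < r := by nlinarith
      have hAs : ∀ x ∈ A, s < |x| := fun x hx => lt_of_lt_of_le (hsr.trans hrδ') (hδA x hx)
      have hsh := shift hA hs0.le hAs
      have hsub : ({y | 0 < y ∧ y + s ∈ A} ∪ {y | y < 0 ∧ y - s ∈ A}) ⊆ Metric.thickening r A := by
        rintro y (⟨_, hy⟩ | ⟨_, hy⟩)
        · rw [Metric.mem_thickening_iff]
          refine ⟨_, hy, ?_⟩
          rw [Real.dist_eq]
          simpa [abs_of_pos hs0] using hsr
        · rw [Metric.mem_thickening_iff]
          refine ⟨_, hy, ?_⟩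
          rw [Real.dist_eq]
          simpa [abs_of_pos hs0] using hsr
      have h2 : ENNReal.ofReal (Real.exp s * t) ≤ nu (Metric.thickening r A) := by
        rw [ENNReal.ofReal_mul (Real.exp_pos _).le, ← ht, ← hsh]
        exact measure_mono hsub
      have h3 : ENNReal.ofReal (m * (1 - r) ^ 2) ≤
          (ENNReal.ofReal (Real.exp s * t) - ENNReal.ofReal t) / ENNReal.ofReal r := by
        rw [← ENNReal.ofReal_sub _ h0, ← ENNReal.ofReal_div_of_pos hr0]
        apply ENNReal.ofReal_le_ofReal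
        rw [le_div_iff₀ hr0]
        have h4 : s * t ≤ (Real.exp s - 1) * t :=
          mul_le_mul_of_nonneg_right (by linarith [Real.add_one_le_exp s]) h0
        have h5 : m * s ≤ s * t := by nlinarith
        have h6 : (1 - r) ^ 2 * r ≤ s := by
          rw [hs]
          nlinarith
        calc m * (1 - r) ^ 2 * r = m * ((1 - r) ^ 2 * r) := by ring
          _ ≤ m * s := mul_le_mul_of_nonneg_left h6 hm0
          _ ≤ Real.exp s * t - t := by linarith
      refine h3.trans ?_
      rw [← ht]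
      exact ENNReal.div_le_div_right (tsub_le_tsub_right h2 _) _
  have hlim : Tendsto (fun r : ℝ => ENNReal.ofReal (m * (1 - r) ^ 2)) (𝓝[>] 0)
      (𝓝 (ENNReal.ofReal m)) := by
    have h2 : Tendsto (fun r : ℝ => m * (1 - r) ^ 2) (𝓝 0) (𝓝 (m * (1 - 0) ^ 2)) :=
      Continuous.tendsto (by fun_prop) 0
    have h3 : Tendsto (fun r : ℝ => m * (1 - r) ^ 2) (𝓝[>] 0) (𝓝 m) := by
      have := h2.mono_left (nhdsWithin_le_nhds (s := Ioi 0))
      simpa using this
    exact ENNReal.tendsto_ofReal h3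
  rw [← hlim.liminf_eq]
  exact liminf_le_liminf key

theorem ratio_ge_one {a : ℝ} (h0 : 0 < a) (h1 : a < 1 / 2) : 1 ≤ ratio nu a := by
  have hne : ¬ (a = 0 ∨ a = 1) := by
    rintro (h | h) <;> linarith
  rw [ratio, profile, if_neg hne, ENNReal.le_div_iff_mul_le, one_mul]
  · refine le_iInf fun A => le_iInf fun hA => le_iInf fun hAa => ?_
    have := isop hA h0.le (by linarith) hAa
    rwa [min_eq_left (by linarith)] at this
  · left
    simpa using h0
  · left
    exact ENNReal.ofReal_ne_top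

/-! ### The upper bound in the plane -/

/-- The complement of a quadrant. -/
def cap (c : ℝ) : Set Plane := {z | c < z.fst ∨ c < z.snd}

theorem tensor_apply (A : Set Plane) :
    tensor nu nu A = (nu.prod nu) ((MeasurableEquiv.toLp 2 (ℝ × ℝ)) ⁻¹' A) := by
  rw [tensor, MeasurableEquiv.map_apply]

instance : IsProbabilityMeasure (tensor nu nu) := by
  unfold tensor
  exact Measure.isProbabilityMeasure_map (MeasurableEquiv.measurable _).aemeasurable

theorem measurableSet_quad (c : ℝ) :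
    MeasurableSet ({z | z.fst ≤ c ∧ z.snd ≤ c} : Set Plane) := by
  have h1 : IsClosed ({z | z.fst ≤ c} : Set Plane) :=
    isClosed_le (WithLp.prod_continuous_ofLp 2 ℝ ℝ).fst continuous_const
  have h2 : IsClosed ({z | z.snd ≤ c} : Set Plane) :=
    isClosed_le (WithLp.prod_continuous_ofLp 2 ℝ ℝ).snd continuous_const
  exact (h1.inter h2).measurableSet

theorem nu_Iic {c : ℝ} (hc : 0 ≤ c) : nu (Iic c) = ENNReal.ofReal (1 - Real.exp (-c) / 2) := by
  have : nu (Iic c) = 1 - nu (Ioi c) := by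
    rw [← compl_Ioi, prob_compl_eq_one_sub measurableSet_Ioi]
  rw [this, nu_Ioi hc, ENNReal.ofReal_sub _ (by positivity), ENNReal.ofReal_one]

theorem tensor_quad {c : ℝ} (hc : 0 ≤ c) :
    tensor nu nu {z | z.fst ≤ c ∧ z.snd ≤ c} =
      ENNReal.ofReal ((1 - Real.exp (-c) / 2) ^ 2) := by
  rw [tensor_apply]
  have : (MeasurableEquiv.toLp 2 (ℝ × ℝ)) ⁻¹' {z : Plane | z.fst ≤ c ∧ z.snd ≤ c} =
      Iic c ×ˢ Iic c := by
    ext z
    rfl
  have hle : 0 ≤ 1 - Real.exp (-c) / 2 := by
    have : Real.exp (-c) ≤ 1 := Real.exp_le_one_iff.2 (by linarith)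
    linarith
  rw [this, Measure.prod_prod, nu_Iic hc, ← ENNReal.ofReal_mul hle, sq]

theorem cap_compl (c : ℝ) : cap c = {z : Plane | z.fst ≤ c ∧ z.snd ≤ c}ᶜ := by
  ext z
  simp only [cap, Set.mem_ofPred_eq, mem_compl_iff, not_and_or, not_le]

theorem tensor_cap {c : ℝ} (hc : 0 ≤ c) :
    tensor nu nu (cap c) = ENNReal.ofReal (1 - (1 - Real.exp (-c) / 2) ^ 2) := by
  rw [cap_compl, prob_compl_eq_one_sub (measurableSet_quad c), tensor_quad hc,
    ENNReal.ofReal_sub _ (by positivity), ENNReal.ofReal_one]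

theorem thick_cap {c r : ℝ} : Metric.thickening r (cap c) ⊆ cap (c - r) := by
  intro z hz
  rw [Metric.mem_thickening_iff] at hz
  obtain ⟨w, hw, hzw⟩ := hz
  have h1 : dist z.fst w.fst ≤ dist z w := by
    rw [WithLp.prod_dist_eq_of_L2]
    exact Real.le_sqrt_of_sq_le (by nlinarith [sq_nonneg (dist z.snd w.snd)])
  have h2 : dist z.snd w.snd ≤ dist z w := by
    rw [WithLp.prod_dist_eq_of_L2]
    exact Real.le_sqrt_of_sq_le (by nlinarith [sq_nonneg (dist z.fst w.fst)])
  rw [Real.dist_eq] at h1 h2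
  rcases hw with hw | hw
  · left
    have := (abs_le.1 (h1.trans hzw.le)).1
    have h3 := (abs_lt.1 (lt_of_le_of_lt h1 hzw)).1
    linarith
  · right
    have h3 := (abs_lt.1 (lt_of_le_of_lt h2 hzw)).1
    linarith

theorem bdry_cap {c : ℝ} (hc : 0 < c) :
    bdry (tensor nu nu) (cap c) ≤
      ENNReal.ofReal (Real.exp (-c) * (1 - Real.exp (-c) / 2)) := by
  set p := Real.exp (-c) / 2 with hp
  have hp0 : 0 < p := by positivity
  have hderiv : HasDerivAt (fun r : ℝ => -(1 - p * Real.exp r) ^ 2) (2 * (1 - p) * p) 0 := by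
    have h1 : HasDerivAt (fun r : ℝ => 1 - p * Real.exp r) (-(p * Real.exp 0)) 0 := by
      simpa using ((Real.hasDerivAt_exp 0).const_mul p).const_sub 1
    have h2 := (h1.pow 2).neg
    refine h2.congr_deriv ?_
    simp
  have hlim := hderiv.tendsto_slope_zero_right
  have key : ∀ᶠ r : ℝ in 𝓝[>] 0,
      (tensor nu nu (Metric.thickening r (cap c)) - tensor nu nu (cap c)) / ENNReal.ofReal r ≤
      ENNReal.ofReal (r⁻¹ • ((fun r : ℝ => -(1 - p * Real.exp r) ^ 2) (0 + r) -
        (fun r : ℝ => -(1 - p * Real.exp r) ^ 2) 0)) := by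
    filter_upwards [Ioo_mem_nhdsGT hc] with r hr
    obtain ⟨hr0, hrc⟩ := hr
    have h1 : tensor nu nu (Metric.thickening r (cap c)) ≤
        ENNReal.ofReal (1 - (1 - p * Real.exp r) ^ 2) := by
      refine (measure_mono thick_cap).trans ?_
      rw [tensor_cap (by linarith)]
      apply le_of_eq
      congr 3
      rw [hp, neg_sub, Real.exp_sub, Real.exp_neg]
      field_simp
    have h3 : 0 ≤ 1 - (1 - p) ^ 2 := by
      have : Real.exp (-c) ≤ 1 := Real.exp_le_one_iff.2 (by linarith)
      nlinarith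
    refine (ENNReal.div_le_div_right (tsub_le_tsub_right h1 _) _).trans ?_
    rw [tensor_cap hc.le, ← ENNReal.ofReal_sub _ h3, ← ENNReal.ofReal_div_of_pos hr0]
    apply ENNReal.ofReal_le_ofReal
    simp only [smul_eq_mul, zero_add, Real.exp_zero, mul_one]
    rw [div_eq_inv_mul]
    apply le_of_eq
    ring
  have hlim2 := ENNReal.tendsto_ofReal hlim
  have h3 : Real.exp (-c) * (1 - p) = 2 * (1 - p) * p := by rw [hp]; ring
  rw [h3, ← hlim2.liminf_eq]
  exact liminf_le_liminf key

theorem ratio_tensor {a : ℝ} (h0 : 0 < a) (h1 : a < 1 / 4) : ratio (tensor nu nu) a < 1 := by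
  set q := Real.sqrt (1 - a) with hq
  have hq2 : q ^ 2 = 1 - a := Real.sq_sqrt (by linarith)
  have hq0 : 0 ≤ q := Real.sqrt_nonneg _
  have hq1 : q < 1 := by nlinarith
  have hqh : 1 / 2 < q := by nlinarith
  set c := -Real.log (2 * (1 - q)) with hc
  have hexp : Real.exp (-c) = 2 * (1 - q) := by
    rw [hc, neg_neg, Real.exp_log (by linarith)]
  have hc0 : 0 < c := by
    have : Real.exp (-c) < 1 := by rw [hexp]; linarith
    have := Real.exp_lt_one_iff.1 this
    linarith
  have hmeas : MeasurableSet (cap c) := by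
    rw [cap_compl]; exact (measurableSet_quad c).compl
  have hval : tensor nu nu (cap c) = ENNReal.ofReal a := by
    rw [tensor_cap hc0.le, hexp]
    congr 1
    nlinarith
  have hb := bdry_cap hc0
  rw [hexp] at hb
  have hne : ¬ (a = 0 ∨ a = 1) := by
    rintro (h | h) <;> linarith
  rw [ratio, profile, if_neg hne]
  have h5 : (⨅ (A : Set Plane) (_ : MeasurableSet A) (_ : tensor nu nu A = ENNReal.ofReal a),
      bdry (tensor nu nu) A) ≤ ENNReal.ofReal (2 * (1 - q) * (1 - 2 * (1 - q) / 2)) :=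
    (iInf_le_of_le (cap c) (iInf_le_of_le hmeas (iInf_le_of_le hval hb)))
  refine lt_of_le_of_lt (ENNReal.div_le_div_right h5 _) ?_
  rw [← ENNReal.ofReal_div_of_pos h0, ← ENNReal.ofReal_one, ENNReal.ofReal_lt_ofReal_iff one_pos,
    div_lt_one h0]
  nlinarith

theorem isSymLogConcave_nu : IsSymLogConcave nu := by
  refine ⟨inferInstance, ⟨fun x => ((|x| + Real.log 2 : ℝ) : EReal), fun x => EReal.coe_ne_bot _,
    fun x y t ht0 ht1 => ?_, ?_⟩, nu_neg⟩
  · rw [← EReal.coe_mul, ← EReal.coe_mul, ← EReal.coe_add]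
    rw [EReal.coe_le_coe_iff]
    have h1 : |t * x + (1 - t) * y| ≤ t * |x| + (1 - t) * |y| := by
      refine (abs_add_le _ _).trans ?_
      rw [abs_mul, abs_mul, abs_of_pos ht0, abs_of_pos (by linarith : 0 < 1 - t)]
    nlinarith
  · rw [nu]
    congr 1
    funext x
    rw [dens, ← EReal.coe_neg, EReal.exp_coe, neg_add, Real.exp_add, Real.exp_neg (Real.log 2),
      Real.exp_log (by norm_num), div_eq_mul_inv]

/-- **Disproof of the Pythagorean inequality for isoperimetric profiles of products.**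
There are symmetric log-concave probability measures `μ₁, μ₂` on the line (both the two-sided
exponential law) such that for every `a ∈ (0, 1/4)`
`R_{μ₁ ⊗ μ₂}(a)² < inf_{a₁ a₂ = a} (R_{μ₁}(a₁)² + R_{μ₂}(a₂)²)`; in fact the left side is `< 1`
and the right side is `≥ 1`. -/
theorem result : ∃ μ₁ μ₂ : Measure ℝ, IsSymLogConcave μ₁ ∧ IsSymLogConcave μ₂ ∧
    ∀ a : ℝ, 0 < a → a < 1 / 4 →
      ratio (tensor μ₁ μ₂) a ^ 2 < 1 ∧
      1 ≤ (⨅ (p : ℝ × ℝ) (_ : 0 < p.1 ∧ p.1 ≤ 1 ∧ 0 < p.2 ∧ p.2 ≤ 1 ∧ p.1 * p.2 = a),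
        (ratio μ₁ p.1 ^ 2 + ratio μ₂ p.2 ^ 2)) ∧
      ratio (tensor μ₁ μ₂) a ^ 2 <
      ⨅ (p : ℝ × ℝ) (_ : 0 < p.1 ∧ p.1 ≤ 1 ∧ 0 < p.2 ∧ p.2 ≤ 1 ∧ p.1 * p.2 = a),
        (ratio μ₁ p.1 ^ 2 + ratio μ₂ p.2 ^ 2) := by
  refine ⟨nu, nu, isSymLogConcave_nu, isSymLogConcave_nu, fun a h0 h1 => ?_⟩
  have hl : ratio (tensor nu nu) a ^ 2 < 1 := by
    have := ratio_tensor h0 h1
    exact pow_lt_one₀ bot_le this (by norm_num)
  have hr : 1 ≤ (⨅ (p : ℝ × ℝ) (_ : 0 < p.1 ∧ p.1 ≤ 1 ∧ 0 < p.2 ∧ p.2 ≤ 1 ∧ p.1 * p.2 = a),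
        (ratio nu p.1 ^ 2 + ratio nu p.2 ^ 2)) := by
    refine le_iInf fun p => le_iInf fun hp => ?_
    obtain ⟨hp1, hp1', hp2, hp2', hpa⟩ := hp
    rcases lt_or_ge p.1 (1 / 2) with h | h
    · exact le_add_right (one_le_pow₀ (ratio_ge_one hp1 h))
    · have h2 : p.2 < 1 / 2 := by
        by_contra hcon
        push Not at hcon
        nlinarith
      exact le_add_left (one_le_pow₀ (ratio_ge_one hp2 h2))
  exact ⟨hl, hr, lt_of_lt_of_le hl hr⟩

end Pool.Agent.Results.MP_662df3_gt.ExponentialPair
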